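import Mathlib
import Pool.Agent.N37.NC.Deg
import Pool.Agent.N37.NC.Gen

/-! `n`-central polynomials, `n` prime, over any infinite field in which `n` is not zero: if there
is one at all, in any variables, then there are bihomogeneous ones in two variables `x`, `y`, and
those of the least bidegree are semi-invariant under all triangular automorphisms
`x ↦ α x + g(y)`, `y ↦ β y + c`, as functions on `M_n(K)`. -/

set_option autoImplicit false

universe u v

namespace Pool.Agent.Results.MP_5d2531_al.AutomorphismNormalForm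

open Polynomial Pool.Agent.N37.NC

/-- Every value of `f` on `n × n` matrices over `K` is a scalar matrix. -/
def ScalarValued {K : Type u} [Field K] {σ : Type v} (n : ℕ) (f : FreeAlgebra K σ) : Prop :=
  ∀ X : σ → Matrix (Fin n) (Fin n) K, ∃ c : K, FreeAlgebra.lift K X f = Matrix.scalar (Fin n) c

/-- `f` is central for `M_n(K)`: all values are scalar and `f` is not identically zero. -/
def IsCentral {K : Type u} [Field K] {σ : Type v} (n : ℕ) (f : FreeAlgebra K σ) : Prop :=
  ScalarValued n f ∧ ∃ X : σ → Matrix (Fin n) (Fin n) K, FreeAlgebra.lift K X f ≠ 0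

/-- `f` is `ν`-central for `M_n(K)`: `ν` is the least positive integer with `f ^ ν` central. -/
def IsNuCentral {K : Type u} [Field K] {σ : Type v} (n ν : ℕ) (f : FreeAlgebra K σ) : Prop :=
  0 < ν ∧ IsCentral n (f ^ ν) ∧ ∀ μ : ℕ, 0 < μ → IsCentral n (f ^ μ) → ν ≤ μ

/-- `f`, a polynomial in the variables `x = 0` and `y = 1`, is a linear combination of words with
`a` letters `x` and `b` letters `y`. -/
def Bihomogeneous {K : Type u} [Field K] (a b : ℕ) (f : FreeAlgebra K (Fin 2)) : Prop :=
  f ∈ Submodule.span K {v : FreeAlgebra K (Fin 2) | ∃ l : List (Fin 2),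
    l.count 0 = a ∧ l.count 1 = b ∧ v = (l.map (FreeAlgebra.ι K)).prod}

/-- `f`, a polynomial in the variables `x = 0` and `y = 1`, is a linear combination of words with
`a` letters `x`, that is, `f` is homogeneous of degree `a` in `x`. -/
def HomogeneousInX {K : Type u} [Field K] (a : ℕ) (f : FreeAlgebra K (Fin 2)) : Prop :=
  f ∈ Submodule.span K {v : FreeAlgebra K (Fin 2) | ∃ l : List (Fin 2),
    l.count 0 = a ∧ v = (l.map (FreeAlgebra.ι K)).prod}

theorem mem_H {K : Type u} [Field K] {a b : ℕ} {f : FreeAlgebra K (Fin 2)} :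
    f ∈ H K 0 a b ↔ Bihomogeneous a b f := by
  have e : (0 : Fin 2) + 1 = 1 := by decide
  unfold H Bihomogeneous
  rw [e]

/-- exchange of the two variables -/
noncomputable def swap {K : Type u} [Field K] : FreeAlgebra K (Fin 2) →ₐ[K] FreeAlgebra K (Fin 2) :=
  FreeAlgebra.lift K (fun c : Fin 2 => FreeAlgebra.ι K (c + 1))

theorem swap_H {K : Type u} [Field K] {a b : ℕ} {f : FreeAlgebra K (Fin 2)}
    (h : Bihomogeneous a b f) : Bihomogeneous b a (swap f) := by
  unfold Bihomogeneous at h
  induction h using Submodule.span_induction with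
  | mem v hv =>
    obtain ⟨l, rfl, rfl, rfl⟩ := hv
    refine Submodule.subset_span ⟨l.map (fun c => c + 1), ?_, ?_, ?_⟩
    · have h1 := List.count_map_of_injective l (fun c : Fin 2 => c + 1) (by decide) 1
      exact h1
    · have h1 := List.count_map_of_injective l (fun c : Fin 2 => c + 1) (by decide) 0
      exact h1
    · rw [map_list_prod, List.map_map, List.map_map]
      congr 1
      refine List.map_congr_left fun c _ => ?_
      simp [swap]
  | zero => rw [map_zero]; exact Submodule.zero_mem _
  | add x y _ _ hx hy => rw [map_add]; exact Submodule.add_mem _ hx hy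
  | smul c x _ hx => rw [map_smul]; exact Submodule.smul_mem _ _ hx

theorem swap_eval {K : Type u} [Field K] {n : ℕ} (Z : Fin 2 → Matrix (Fin n) (Fin n) K)
    (f : FreeAlgebra K (Fin 2)) :
    FreeAlgebra.lift K Z (swap f) = FreeAlgebra.lift K (fun c => Z (c + 1)) f := by
  have e : (FreeAlgebra.lift K Z).comp swap = FreeAlgebra.lift K (fun c => Z (c + 1)) := by
    apply FreeAlgebra.hom_ext
    funext c
    simp [swap]
  exact DFunLike.congr_fun e f

theorem swap_good {K : Type u} [Field K] {n : ℕ} {f : FreeAlgebra K (Fin 2)} (h : Good n f) :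
    Good n (swap f) := by
  obtain ⟨h1, X, hX⟩ := h
  refine ⟨fun Z => ?_, fun c => X (c + 1), ?_⟩
  · rw [swap_eval]
    exact h1 _
  · rw [swap_eval]
    have e : (fun c : Fin 2 => X (c + 1 + 1)) = X := by
      funext c
      congr 1
      revert c
      decide
    rw [e]
    exact hX

theorem scale_H {K : Type u} [Field K] {n a b : ℕ} {f : FreeAlgebra K (Fin 2)}
    (h : Bihomogeneous a b f) (X Y : Matrix (Fin n) (Fin n) K) (α β : K) :
    FreeAlgebra.lift K ![α • X, β • Y] f = (α ^ a * β ^ b) • FreeAlgebra.lift K ![X, Y] f := by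
  unfold Bihomogeneous at h
  induction h using Submodule.span_induction with
  | mem v hv =>
    obtain ⟨l, rfl, rfl, rfl⟩ := hv
    induction l with
    | nil => simp
    | cons c l ih =>
      rw [List.map_cons, List.prod_cons, map_mul, map_mul, ih, FreeAlgebra.lift_ι_apply,
        FreeAlgebra.lift_ι_apply]
      fin_cases c
      · simp [pow_succ, smul_smul]
        ring_nf
      · simp [pow_succ, smul_smul]
        ring_nf
  | zero => simp
  | add x y _ _ hx hy => rw [map_add, map_add, hx, hy, smul_add]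
  | smul c x _ hx => rw [map_smul, map_smul, hx, smul_comm]

theorem scale_V {K : Type u} [Field K] {n a : ℕ} {f : FreeAlgebra K (Fin 2)}
    (h : HomogeneousInX a f) (X Y : Matrix (Fin n) (Fin n) K) (α : K) :
    FreeAlgebra.lift K ![α • X, Y] f = α ^ a • FreeAlgebra.lift K ![X, Y] f := by
  unfold HomogeneousInX at h
  induction h using Submodule.span_induction with
  | mem v hv =>
    obtain ⟨l, rfl, rfl⟩ := hv
    induction l with
    | nil => simp
    | cons c l ih =>
      rw [List.map_cons, List.prod_cons, map_mul, map_mul, ih, FreeAlgebra.lift_ι_apply,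
        FreeAlgebra.lift_ι_apply]
      fin_cases c
      · simp [pow_succ, smul_smul]
      · simp
  | zero => simp
  | add x y _ _ hx hy => rw [map_add, map_add, hx, hy, smul_add]
  | smul c x _ hx => rw [map_smul, map_smul, hx, smul_comm]

/-- Let `n` be a prime, `K` an infinite field in which `n` is not zero, and suppose that there is
an `n`-central polynomial `f₀` for `M_n(K)`, in any set of variables.  Let `(a, b)` be the
lexicographically least bidegree of the bihomogeneous `n`-central polynomials in the two variables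
`x`, `y`.  It exists, and
* `a ≤ b`;
* every `n`-central polynomial `f` which is homogeneous of degree `a` in `x` satisfies
  `f(α X + g(Y), Y) = α ^ a • f(X, Y)` for all matrices `X`, `Y`, all polynomials `g` in one
  variable and all scalars `α`;
* every `n`-central polynomial `f` of bidegree `(a, b)` satisfies
  `f(α X + g(Y), β Y + c) = α ^ a * β ^ b • f(X, Y)` for all matrices `X`, `Y`, all polynomials `g`
  in one variable, and all scalars `α`, `β`, `c` with `β ≠ 0`;
* if `n ≥ 5` then `n < a` and `2 n + ⌊n / 2⌋ ≤ a + b`. -/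
theorem result {K : Type u} [Field K] [Infinite K] (n : ℕ) (hn : n.Prime) (hnK : (n : K) ≠ 0)
    {σ : Type v} (f₀ : FreeAlgebra K σ) (hf₀ : IsNuCentral n n f₀) :
    ∃ a b : ℕ,
      (∃ f : FreeAlgebra K (Fin 2), Bihomogeneous a b f ∧ IsNuCentral n n f) ∧
      (∀ a' b' : ℕ, (∃ f : FreeAlgebra K (Fin 2), Bihomogeneous a' b' f ∧ IsNuCentral n n f) →
        a < a' ∨ a = a' ∧ b ≤ b') ∧
      a ≤ b ∧
      (∀ f : FreeAlgebra K (Fin 2), HomogeneousInX a f → IsNuCentral n n f →
        ∀ (X Y : Matrix (Fin n) (Fin n) K) (g : K[X]) (α : K),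
          FreeAlgebra.lift K ![α • X + aeval Y g, Y] f = α ^ a • FreeAlgebra.lift K ![X, Y] f) ∧
      (∀ f : FreeAlgebra K (Fin 2), Bihomogeneous a b f → IsNuCentral n n f →
        ∀ (X Y : Matrix (Fin n) (Fin n) K) (g : K[X]) (α β c : K), β ≠ 0 →
          FreeAlgebra.lift K ![α • X + aeval Y g, β • Y + Matrix.scalar (Fin n) c] f =
            (α ^ a * β ^ b) • FreeAlgebra.lift K ![X, Y] f) ∧
      (5 ≤ n → n < a ∧ 2 * n + n / 2 ≤ a + b) := by
  obtain ⟨f1, hf1⟩ := to_two hn.pos (good_of_nu hn hnK hf₀)
  obtain ⟨a, b, ⟨f, hfH, hf⟩, hmin, hinv⟩ := normal hf1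
  refine ⟨a, b, ⟨f, mem_H.1 hfH, nu_of_good hn hnK hf⟩, ?_, ?_, ?_, ?_, fun hn5 => ?_⟩
  · rintro a' b' ⟨g, hg, hg'⟩
    exact hmin a' b' ⟨g, mem_H.2 hg, good_of_nu hn hnK hg'⟩
  · rcases hmin b a ⟨swap f, mem_H.2 (swap_H (mem_H.1 hfH)), swap_good hf⟩ with h | h
    · exact h.le
    · exact h.1.le
  · intro f' hV hf' X Y g α
    rw [← scale_V hV]
    refine shift_V (fun e he => ?_) hV (good_of_nu hn hnK hf') g (α • X) Y
    rintro ⟨b', h⟩
    rcases hmin e b' h with h1 | h1
    · omega
    · omega
  · intro f' hfH' hf' X Y g α β c hβ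
    have h1 := hinv f' (mem_H.2 hfH') (good_of_nu hn hnK hf') (α • X) (β • Y)
      (g.comp (C β⁻¹ * Polynomial.X)) c
    rw [scale_H hfH'] at h1
    rw [← h1]
    congr 3
    · rw [aeval_comp]
      congr 2
      rw [map_mul, aeval_C, aeval_X, ← Algebra.smul_def, smul_smul, inv_mul_cancel₀ hβ, one_smul]
  · have h1 := bounds hn hn5 hnK hfH hf
    exact ⟨h1.1, h1.2.2⟩

end Pool.Agent.Results.MP_5d2531_al.AutomorphismNormalForm
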