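import Pool.Agent.N37.LF.Fin

/-!
# The base field in the question on `n`-central polynomials

Existence of a `ν`-central polynomial for `M_n(K)` of bounded degree in a bounded number of variables
is expressed by one first-order sentence in the language of rings (generic coefficients, generic
matrices), and it descends along algebraic extensions of infinite fields.
-/

set_option autoImplicit false

universe u v

namespace Pool.Agent.Results.MP_5d2531_al.FieldIndependence

open Pool.Agent.N37.LF

/-- Fix `n`, `ν`, `m`, `d`, and call `Has K n ν m d` the statement that `M_n(K)` has a `ν`-central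
polynomial in `m` variables of degree at most `d`.
* For algebraically closed fields it depends only on the characteristic.
* It holds for the algebraically closed fields of characteristic zero iff it holds for those of
  characteristic `p` for all but finitely many primes `p`, iff for infinitely many primes `p`.
* If it holds for one field of characteristic zero, then it holds for all fields containing a certain
  number field, and for all algebraically closed fields of characteristic `p`, for all but finitely
  many primes `p`.
* If it holds for one infinite field of characteristic `p`, then it holds for all infinite fields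
  containing a certain finite field of characteristic `p`.
* It passes to extensions of infinite fields, and if it holds for an algebraic extension of an
  infinite field `K` then it holds for a finite subextension.
* If for infinitely many primes `p` there is an algebraically closed field of characteristic `p`
  without `ν`-central polynomials, then no field of characteristic zero has a `ν`-central
  polynomial. -/
theorem result (n ν : ℕ) :
    (∀ (m d p : ℕ) (K : Type u) (L : Type v) [Field K] [Field L] [IsAlgClosed K] [IsAlgClosed L]
      [CharP K p] [CharP L p], Has K n ν m d ↔ Has L n ν m d) ∧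
    (∀ (m d : ℕ) (K : Type v) [Field K] [IsAlgClosed K] [CharZero K],
      (Has K n ν m d ↔ {p : ℕ | p.Prime ∧ ¬ Good.{u} n ν m d p}.Finite) ∧
      (Has K n ν m d ↔ {p : ℕ | p.Prime ∧ Good.{u} n ν m d p}.Infinite)) ∧
    (∀ (m d : ℕ) (K : Type v) [Field K] [CharZero K], Has K n ν m d →
      (∃ (F : Type) (_ : Field F) (_ : NumberField F), ∀ (L : Type u) [Field L] [Algebra F L],
        Has L n ν m d) ∧
      {p : ℕ | p.Prime ∧ ¬ Good.{u} n ν m d p}.Finite) ∧
    (∀ (m d p : ℕ) [Fact p.Prime] (K : Type v) [Field K] [Infinite K] [CharP K p], Has K n ν m d →
      ∃ (F : Type) (_ : Field F), Finite F ∧ CharP F p ∧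
        ∀ (L : Type u) [Field L] [Infinite L] [Algebra F L], Has L n ν m d) ∧
    (∀ (m d : ℕ) (K : Type u) (L : Type v) [Field K] [Infinite K] [Field L] [Algebra K L],
      (Has K n ν m d → Has L n ν m d) ∧
      (Algebra.IsAlgebraic K L → Has L n ν m d →
        ∃ F : IntermediateField K L, FiniteDimensional K F ∧ Has F n ν m d)) ∧
    ({p : ℕ | p.Prime ∧ ∃ (k : Type u) (_ : Field k), IsAlgClosed k ∧ CharP k p ∧
        ¬ HasAny k n ν}.Infinite →
      ∀ (K : Type v) [Field K] [CharZero K], ¬ HasAny K n ν) := by
  refine ⟨fun m d p K L _ _ _ _ _ _ => has_char n ν m d p K L,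
    fun m d K _ _ _ => ⟨lef_fin n ν m d K, lef_inf n ν m d K⟩,
    fun m d K _ _ h => ⟨def_char0 n ν m d K h, good_of_char0 n ν m d K h⟩,
    fun m d p _ K _ _ _ h => def_charp n ν m d p K h,
    fun m d K L _ _ _ _ => ⟨has_ext n ν m d, fun hA h => has_alg n ν m d h⟩,
    fun hinf K _ _ hK => ?_⟩
  obtain ⟨m, d, h⟩ := (hasAny_iff K n ν).1 hK
  refine hinf ((good_of_char0.{u} n ν m d K h).subset ?_)
  rintro p ⟨hp, k, _, hk, hch, hno⟩
  exact ⟨hp, fun hg => hno ((hasAny_iff k n ν).2 ⟨m, d, hg k⟩)⟩

end Pool.Agent.Results.MP_5d2531_al.FieldIndependence
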